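import Mathlib
import Pool.Agent.R728.HM.Final

/-!
# Hitchin section Higgs bundles over `ℂ` without harmonic metric

For every `n ≥ 3` there is a nonzero constant tuple `q` such that the Higgs bundle
`(𝕂_{ℂ,n}, θ(q))` has no harmonic metric. (The tuple is `q_{n-1} = n/2`, `q_n = 1 - n`, the others
zero; its Higgs field `A dz` has a Jordan block of size two for the eigenvalue `1`.)

Proof: for a harmonic metric `h` put `u = |A|²_h`. Then `Δ log u ≥ 4 |[A, A*]|² / u`, and
`|[A, A*]|² ≥ n⁻³ (u - L)²`, with `L` the sum of the squared moduli of the eigenvalues of `A` (Henrici).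
The maximum principle on discs whose radius tends to infinity gives `u ≤ L` on `ℂ`, so `A` is normal
for `h`, hence diagonalisable, a contradiction.
-/

namespace Pool.Agent.Results.MP_4f0bc7_gt.NoHarmonicMetric

open Pool.Agent.R728.HM

/-- For every `n ≥ 3` there are constants `c_2, …, c_n`, not all zero, such that the Higgs bundle
`(𝕂_{ℂ,n}, θ(q))` with `q_k = c_k (dz)^k` admits no harmonic metric. -/
theorem result (n : ℕ) (hn : 3 ≤ n) :
    ∃ c : ℕ → ℂ, (∃ k, 2 ≤ k ∧ k ≤ n ∧ c k ≠ 0) ∧ ¬ HasHarmonicMetric n (fun k _ => c k) := by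
  obtain ⟨m, rfl⟩ : ∃ m, n = m + 3 := ⟨n - 3, by omega⟩
  refine ⟨badC (m + 3), ⟨m + 3, by omega, le_rfl, ?_⟩, bad_no_harmonic m⟩
  rw [badC, if_neg (by omega), if_pos rfl]
  intro h
  have h1 : (1 : ℂ) = ((m + 3 : ℕ) : ℂ) := by linear_combination h
  have h2 : (1 : ℕ) = m + 3 := by exact_mod_cast h1
  omega

end Pool.Agent.Results.MP_4f0bc7_gt.NoHarmonicMetric
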